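import Mathlib

set_option autoImplicit false

/-!
# MP_fc2a59_co, project ALM (owner helper24): Jaeger's conjecture for almost all cubic graphs

Definitions.  Conventions: `open scoped Classical`; all cardinalities are natural numbers.

A vertex set `V`; every vertex has three points, `Pt V = V × Fin 3`.  A pairing is a fixed point free
involution of `Pt V` (as a function); it describes a cubic multigraph.  A partial pairing is an
involution; its fixed points are the free points.
-/

namespace Pool.Agent.ALM

open Finset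
open scoped Classical

/-! ### General block structures -/

/-- involution = partial pairing; fixed points are the free points -/
def Inv {X : Type} (ρ : X → X) : Prop := ∀ x, ρ (ρ x) = x

/-- fixed point free involution = pairing -/
def IsPr {X : Type} (σ : X → X) : Prop := ∀ x, σ (σ x) = x ∧ σ x ≠ x

/-- the pairings of a finite type -/
noncomputable def prs (X : Type) [Fintype X] : Finset (X → X) := univ.filter fun σ => IsPr σ

/-- number of moved points -/
noncomputable def mv {X : Type} [Fintype X] (ρ : X → X) : ℕ := (univ.filter fun x => ρ x ≠ x).card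

/-- the relation on blocks defined by an involution: some point of `u` is paired with a point of `v`
(a fixed point only gives `u ~ u`, which is harmless) -/
def lk {X W : Type} (b : X → W) (ρ : X → X) (u v : W) : Prop := ∃ x, b x = u ∧ b (ρ x) = v

/-- the connected components of the blocks -/
abbrev Cm {X W : Type} (b : X → W) (ρ : X → X) : Type := Quot (lk b ρ)

noncomputable instance instFintypeCm {X W : Type} [Finite W] (b : X → W) (ρ : X → X) :
    Fintype (Cm b ρ) := Fintype.ofFinite _

/-- number of components -/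
noncomputable def nc {X W : Type} (b : X → W) (ρ : X → X) : ℕ := Nat.card (Cm b ρ)

/-- the pairs of `ρ` form a forest on the blocks -/
def For {X W : Type} [Fintype X] [Fintype W] (b : X → W) (ρ : X → X) : Prop :=
  Inv ρ ∧ mv ρ + 2 * nc b ρ = 2 * Fintype.card W

/-- the pairs of `ρ` form a spanning tree on the blocks -/
def Tre {X W : Type} [Fintype X] [Fintype W] (b : X → W) (ρ : X → X) : Prop :=
  Inv ρ ∧ nc b ρ = 1 ∧ mv ρ + 2 = 2 * Fintype.card W

/-- the free points of `ρ` -/
abbrev Fx {X : Type} (ρ : X → X) : Type := {x : X // ρ x = x}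

/-- the block map from the free points to the components -/
def qm {X W : Type} (b : X → W) (ρ : X → X) (x : Fx ρ) : Cm b ρ := Quot.mk _ (b x.1)

/-- number of free points in a component -/
noncomputable def fp {X W : Type} [Fintype X] (b : X → W) (ρ : X → X) (K : Cm b ρ) : ℕ :=
  (univ.filter fun x : Fx ρ => qm b ρ x = K).card

/-- restriction of `σ` to the points with property `P`: pairs leaving `P` become free points -/
noncomputable def rs {X : Type} (P : X → Prop) (σ : X → X) (x : {x : X // P x}) : {x : X // P x} :=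
  if h : P (σ x.1) then ⟨σ x.1, h⟩ else x

/-- block map of the points whose block lies in `A` -/
def bl {X V : Type} (b : X → V) (A : Finset V) (x : {x : X // b x ∈ A}) : {v : V // v ∈ A} := ⟨b x.1, x.2⟩

/-- the subgraph induced by `A` is a tree -/
def TreeOn {X V : Type} [Fintype X] (b : X → V) (σ : X → X) (A : Finset V) : Prop :=
  Tre (bl b A) (rs (fun x => b x ∈ A) σ)

/-- `σ` contains the partial pairing `F` -/
def Sub {X : Type} (F σ : X → X) : Prop := ∀ x, F x ≠ x → σ x = F x

/-! ### Cubic multigraphs -/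

/-- three points at every vertex -/
abbrev Pt (V : Type) : Type := V × Fin 3

/-- the two sides `A`, `Aᶜ` both induce trees -/
def Jp {V : Type} [Fintype V] (σ : Pt V → Pt V) (A : Finset V) : Prop :=
  TreeOn Prod.fst σ A ∧ TreeOn Prod.fst σ Aᶜ

/-- number of partitions into two induced trees (ordered) -/
noncomputable def Y {V : Type} [Fintype V] (σ : Pt V → Pt V) : ℕ :=
  ((univ : Finset (Finset V)).filter fun A => Jp σ A).card

/-- the simple graph of a pairing -/
def gr {V : Type} (σ : Pt V → Pt V) : SimpleGraph V :=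
  SimpleGraph.fromRel fun u v => ∃ i : Fin 3, (σ (u, i)).1 = v

/-- no loops and no multiple edges -/
def Simp {V : Type} (σ : Pt V → Pt V) : Prop :=
  (∀ u i, (σ (u, i)).1 ≠ u) ∧ ∀ u i j, (σ (u, i)).1 = (σ (u, j)).1 → i = j

/-- the property asked for in the problem: the edges split into two trees (on the vertices they touch) -/
def TwoTrees {V : Type} (G : SimpleGraph V) : Prop :=
  ∃ T₁ T₂ : SimpleGraph V,
    T₁ ⊔ T₂ = G ∧ Disjoint T₁ T₂ ∧
    T₁.IsAcyclic ∧ T₂.IsAcyclic ∧
    (∀ u v, u ∈ T₁.support → v ∈ T₁.support → T₁.Reachable u v) ∧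
    (∀ u v, u ∈ T₂.support → v ∈ T₂.support → T₂.Reachable u v)

/-- cubic graphs -/
def Cubic {V : Type} [Fintype V] (G : SimpleGraph V) : Prop := ∀ v, G.degree v = 3

/-- cyclically 4-edge-connected, as in the problem -/
def C4 {V : Type} [Fintype V] (G : SimpleGraph V) : Prop :=
  ∀ S : Finset V,
    (∃ (v : V) (q : G.Walk v v), q.IsCycle ∧ ∀ w ∈ q.support, w ∈ S) →
    (∃ (v : V) (q : G.Walk v v), q.IsCycle ∧ ∀ w ∈ q.support, w ∉ S) →
    4 ≤ ((Finset.univ ×ˢ Finset.univ).filter
      (fun e : V × V => e.1 ∈ S ∧ e.2 ∉ S ∧ G.Adj e.1 e.2)).card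

/-! ### Short cycles -/

/-- cyclic successor -/
def nx {i : ℕ} (t : Fin i) : Fin i := finRotate i t

/-- the partial pairing of a rooted oriented cycle: vertices `v t`, entering points `a t`, leaving points
`b t`; the pairs are `(v t, b t) -- (v (t+1), a (t+1))` -/
noncomputable def cyF {V : Type} {i : ℕ} (v : Fin i → V) (a b : Fin i → Fin 3) (x : Pt V) : Pt V :=
  if h : ∃ t, x = (v t, b t) then (v (nx h.choose), a (nx h.choose))
  else if h : ∃ t, x = (v (nx t), a (nx t)) then (v h.choose, b h.choose)
  else x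

/-- the potential cycles of length `i` -/
noncomputable def cyc (V : Type) [Fintype V] (i : ℕ) : Finset (Pt V → Pt V) :=
  univ.filter fun F => ∃ (v : Fin i → V) (a b : Fin i → Fin 3),
    Function.Injective v ∧ (∀ t, a t ≠ b t) ∧ F = cyF v a b

/-- number of cycles of length `i` of `σ` -/
noncomputable def X {V : Type} [Fintype V] (i : ℕ) (σ : Pt V → Pt V) : ℕ :=
  ((cyc V i).filter fun F => Sub F σ).card

/-- vertices touched by a partial pairing -/
noncomputable def tch {V : Type} [Fintype V] (F : Pt V → Pt V) : Finset V :=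
  univ.filter fun v => ∃ j, F (v, j) ≠ (v, j)

/-! ### Numbers -/

/-- `(2k-1)!!`, the number of pairings of `2k` points -/
def II (k : ℕ) : ℕ := ∏ i ∈ range k, (2 * i + 1)

/-- the expected number of `i`-cycles -/
noncomputable def lam (i : ℕ) : ℝ := 2 ^ i / (2 * i)

/-- `s_0 = 2`, `s_1 = 3/2`, `s_(n+2) = 3/2 s_(n+1) - s_n`  (`= w^n + wbar^n`, `w = (3 + i sqrt 7)/4`) -/
noncomputable def sq : ℕ → ℝ
  | 0 => 2
  | 1 => 3 / 2
  | n + 2 => 3 / 2 * sq (n + 1) - sq n

/-- the expected number of `i`-cycles in the planted model -/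
noncomputable def mu (i : ℕ) : ℝ := (2 ^ i + (1 / 2) ^ i + sq i - 4) / (2 * i)

/-- the limit of the second moment ratio: `exp (∑ (mu i - lam i)^2 / lam i)` -/
noncomputable def Rinf : ℝ := 432 / (11 * Real.sqrt 7)

/-- Poisson weights -/
noncomputable def po (θ : ℝ) (x : ℕ) : ℝ := Real.exp (-θ) * θ ^ x / (x.factorial : ℝ)

/-- first moment: `∑ σ, Y σ` for `2m` vertices -/
noncomputable def N1 (m : ℕ) : ℝ :=
  ((2 * m).choose m : ℝ) * 9 ^ m * ((2 * m).factorial : ℝ) ^ 2 / ((m + 2).factorial : ℝ)

/-- number of pairings for `2m` vertices -/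
noncomputable def MM (m : ℕ) : ℝ := (II (3 * m) : ℝ)

/-- `phi = ∑_{s ≥ 1} 3^s C(2s,s) u^s`, so that `1 + phi = (1 - 12 u)^(-1/2)` -/
noncomputable def phi : PowerSeries ℝ :=
  PowerSeries.mk fun s => if s = 0 then 0 else 3 ^ s * (Nat.centralBinom s : ℝ)

/-- coefficients of the powers of `phi` -/
noncomputable def co (v c : ℕ) : ℝ := PowerSeries.coeff v (phi ^ c)

/-- `BB N w = [x^w y^w] (1 + phi(x) + phi(y))^N` -/
noncomputable def BB (N w : ℕ) : ℝ :=
  ∑ c ∈ range (N + 1), ∑ c' ∈ range (N + 1 - c),
    (N.factorial : ℝ) / ((c.factorial : ℝ) * (c'.factorial : ℝ) * ((N - c - c').factorial : ℝ)) *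
      co w c * co w c'

/-- the main part of the second moment: `∑ σ, (Y σ)^2 = 2 N1 m + N2 m` -/
noncomputable def N2 (m : ℕ) : ℝ :=
  ((2 * m).factorial : ℝ) * ∑ v ∈ Ico 1 m,
    ((v.factorial : ℝ) ^ 2 * ((m - v).factorial : ℝ) ^ 2 /
      (((v + 2).factorial : ℝ) * ((m - v + 2).factorial : ℝ))) * BB (v + 2) (m - v) * BB (m - v + 2) v

/-- weights of the uniform model on `2m` vertices -/
noncomputable def wn (m : ℕ) (σ : Pt (Fin (2 * m)) → Pt (Fin (2 * m))) : ℝ :=
  if IsPr σ then 1 / MM m else 0

/-- weights of the planted model -/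
noncomputable def wp (m : ℕ) (σ : Pt (Fin (2 * m)) → Pt (Fin (2 * m))) : ℝ :=
  if IsPr σ then (Y σ : ℝ) / N1 m else 0

end Pool.Agent.ALM
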