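import Pool.Agent.Lib.MP_fc2a59_co.ALM.M.p_fin3

set_option autoImplicit false

/-!
# Project ALM: the final statement in plain terms
-/

namespace Pool.Agent.ALM

open Finset Filter Topology

theorem cubic_iff {V : Type} [Fintype V] (G : SimpleGraph V) :
    (∀ v, (G.neighborSet v).ncard = 3) ↔ Cubic G := by
  classical
  unfold Cubic
  apply forall_congr'
  intro v
  rw [Set.ncard_eq_toFinset_card', ← SimpleGraph.card_neighborFinset_eq_degree]
  have : (G.neighborSet v).toFinset = G.neighborFinset v := by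
    ext x; simp
  rw [this]

theorem c4_iff {V : Type} [Fintype V] (G : SimpleGraph V) :
    (∀ S : Finset V,
          (∃ (v : V) (q : G.Walk v v), q.IsCycle ∧ ∀ w ∈ q.support, w ∈ S) →
          (∃ (v : V) (q : G.Walk v v), q.IsCycle ∧ ∀ w ∈ q.support, w ∉ S) →
          4 ≤ {e : V × V | e.1 ∈ S ∧ e.2 ∉ S ∧ G.Adj e.1 e.2}.ncard) ↔ C4 G := by
  classical
  unfold C4
  apply forall_congr'
  intro S
  have : {e : V × V | e.1 ∈ S ∧ e.2 ∉ S ∧ G.Adj e.1 e.2}.ncard =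
      ((Finset.univ ×ˢ Finset.univ).filter
      (fun e : V × V => e.1 ∈ S ∧ e.2 ∉ S ∧ G.Adj e.1 e.2)).card := by
    rw [← Set.ncard_coe_finset]
    congr 1
    ext e
    simp
  rw [this]

/-- the final statement in plain terms -/
theorem plain_of (h : S_fin3) :
    ∀ ε : ℝ, 0 < ε → ∃ N : ℕ, ∀ n : ℕ, N ≤ n → Even n →
      0 < {G : SimpleGraph (Fin n) | (∀ v, (G.neighborSet v).ncard = 3) ∧
          ∀ S : Finset (Fin n),
            (∃ (v : Fin n) (q : G.Walk v v), q.IsCycle ∧ ∀ w ∈ q.support, w ∈ S) →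
            (∃ (v : Fin n) (q : G.Walk v v), q.IsCycle ∧ ∀ w ∈ q.support, w ∉ S) →
            4 ≤ {e : Fin n × Fin n | e.1 ∈ S ∧ e.2 ∉ S ∧ G.Adj e.1 e.2}.ncard}.ncard ∧
      ({G : SimpleGraph (Fin n) | (∀ v, (G.neighborSet v).ncard = 3) ∧
          ({T : SimpleGraph (Fin n) × SimpleGraph (Fin n) |
            T.1 ⊔ T.2 = G ∧ Disjoint T.1 T.2 ∧ T.1.IsAcyclic ∧ T.2.IsAcyclic ∧
            (∀ u v, u ∈ T.1.support → v ∈ T.1.support → T.1.Reachable u v) ∧
            (∀ u v, u ∈ T.2.support → v ∈ T.2.support → T.2.Reachable u v)}.ncard : ℝ) <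
              (8 / 5) ^ n}.ncard : ℝ) ≤
        ε * ({G : SimpleGraph (Fin n) | (∀ v, (G.neighborSet v).ncard = 3) ∧
          ∀ S : Finset (Fin n),
            (∃ (v : Fin n) (q : G.Walk v v), q.IsCycle ∧ ∀ w ∈ q.support, w ∈ S) →
            (∃ (v : Fin n) (q : G.Walk v v), q.IsCycle ∧ ∀ w ∈ q.support, w ∉ S) →
            4 ≤ {e : Fin n × Fin n | e.1 ∈ S ∧ e.2 ∉ S ∧ G.Adj e.1 e.2}.ncard}.ncard : ℝ) := by
  classical
  intro ε hε
  obtain ⟨N, hN⟩ := h ε hε
  refine ⟨N, fun n hn he => ?_⟩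
  obtain ⟨a, b⟩ := hN n hn he
  have e1 : {G : SimpleGraph (Fin n) | (∀ v, (G.neighborSet v).ncard = 3) ∧
          ∀ S : Finset (Fin n),
            (∃ (v : Fin n) (q : G.Walk v v), q.IsCycle ∧ ∀ w ∈ q.support, w ∈ S) →
            (∃ (v : Fin n) (q : G.Walk v v), q.IsCycle ∧ ∀ w ∈ q.support, w ∉ S) →
            4 ≤ {e : Fin n × Fin n | e.1 ∈ S ∧ e.2 ∉ S ∧ G.Adj e.1 e.2}.ncard}.ncard =
      ((univ : Finset (SimpleGraph (Fin n))).filter fun G => Cubic G ∧ C4 G).card := by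
    rw [← Set.ncard_coe_finset]
    congr 1
    ext G
    rw [Set.mem_ofPred_eq, cubic_iff, c4_iff]
    simp
  have e2 : {G : SimpleGraph (Fin n) | (∀ v, (G.neighborSet v).ncard = 3) ∧
          ({T : SimpleGraph (Fin n) × SimpleGraph (Fin n) |
            T.1 ⊔ T.2 = G ∧ Disjoint T.1 T.2 ∧ T.1.IsAcyclic ∧ T.2.IsAcyclic ∧
            (∀ u v, u ∈ T.1.support → v ∈ T.1.support → T.1.Reachable u v) ∧
            (∀ u v, u ∈ T.2.support → v ∈ T.2.support → T.2.Reachable u v)}.ncard : ℝ) <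
              (8 / 5) ^ n}.ncard =
      ((univ : Finset (SimpleGraph (Fin n))).filter fun G => Cubic G ∧
    ({T : SimpleGraph (Fin n) × SimpleGraph (Fin n) | Dec G T}.ncard : ℝ) < (8 / 5) ^ n).card := by
    rw [← Set.ncard_coe_finset]
    congr 1
    ext G
    rw [Set.mem_ofPred_eq, cubic_iff, Finset.mem_coe, Finset.mem_filter]
    simp only [Finset.mem_univ, true_and]
    rfl
  rw [e1, e2]
  constructor
  · convert a
  · convert b

end Pool.Agent.ALM
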