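import Pool.Agent.Lib.MP_fc2a59_co.ALM.T.p_T
import Pool.Agent.Lib.MP_fc2a59_co.ALM.T.p_TB
import Pool.Agent.Lib.MP_fc2a59_co.ALM.T.p_ncle
import Pool.Agent.Lib.MP_fc2a59_co.ALM.T.p_2ST
import Pool.Agent.Lib.MP_fc2a59_co.ALM.T.p_inv
import Pool.Agent.Lib.MP_fc2a59_co.ALM.T.p_DEC
import Pool.Agent.Lib.MP_fc2a59_co.ALM.T.p_pr
import Pool.Agent.Lib.MP_fc2a59_co.ALM.T.p_L3
import Pool.Agent.Lib.MP_fc2a59_co.ALM.T.p_Jc
import Pool.Agent.Lib.MP_fc2a59_co.ALM.T.p_N1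
import Pool.Agent.Lib.MP_fc2a59_co.ALM.A.p_ps
import Pool.Agent.Lib.MP_fc2a59_co.ALM.A.p_four
import Pool.Agent.Lib.MP_fc2a59_co.ALM.A.p_chb
import Pool.Agent.Lib.MP_fc2a59_co.ALM.A.p_ulb
import Pool.Agent.Lib.MP_fc2a59_co.ALM.A.p_tlb
import Pool.Agent.Lib.MP_fc2a59_co.ALM.A.p_loc
import Pool.Agent.Lib.MP_fc2a59_co.ALM.A.p_bin
import Pool.Agent.Lib.MP_fc2a59_co.ALM.A.p_ent
import Pool.Agent.Lib.MP_fc2a59_co.ALM.A.p_rate
import Pool.Agent.Lib.MP_fc2a59_co.ALM.A.p_ext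
import Pool.Agent.Lib.MP_fc2a59_co.ALM.A.p_dom
import Pool.Agent.Lib.MP_fc2a59_co.ALM.A.p_sum
import Pool.Agent.Lib.MP_fc2a59_co.ALM.A.p_pref
import Pool.Agent.Lib.MP_fc2a59_co.ALM.A.p_A
import Pool.Agent.Lib.MP_fc2a59_co.ALM.A.p_EY
import Pool.Agent.Lib.MP_fc2a59_co.ALM.P.p_bon
import Pool.Agent.Lib.MP_fc2a59_co.ALM.P.p_MM
import Pool.Agent.Lib.MP_fc2a59_co.ALM.P.p_poS
import Pool.Agent.Lib.MP_fc2a59_co.ALM.P.p_SSC
import Pool.Agent.Lib.MP_fc2a59_co.ALM.P.p_P4s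
import Pool.Agent.Lib.MP_fc2a59_co.ALM.P.p_P4
import Pool.Agent.Lib.MP_fc2a59_co.ALM.S.p_blk
import Pool.Agent.Lib.MP_fc2a59_co.ALM.S.p_SPL
import Pool.Agent.Lib.MP_fc2a59_co.ALM.S.p_lab
import Pool.Agent.Lib.MP_fc2a59_co.ALM.S.p_cfl
import Pool.Agent.Lib.MP_fc2a59_co.ALM.S.p_COMP
import Pool.Agent.Lib.MP_fc2a59_co.ALM.S.p_tr2
import Pool.Agent.Lib.MP_fc2a59_co.ALM.S.p_rec
import Pool.Agent.Lib.MP_fc2a59_co.ALM.S.p_crec
import Pool.Agent.Lib.MP_fc2a59_co.ALM.S.p_FOR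
import Pool.Agent.Lib.MP_fc2a59_co.ALM.S.p_FORP
import Pool.Agent.Lib.MP_fc2a59_co.ALM.S.p_NAA
import Pool.Agent.Lib.MP_fc2a59_co.ALM.S.p_Y2
import Pool.Agent.Lib.MP_fc2a59_co.ALM.C.p_cyv
import Pool.Agent.Lib.MP_fc2a59_co.ALM.C.p_cyb
import Pool.Agent.Lib.MP_fc2a59_co.ALM.C.p_fib
import Pool.Agent.Lib.MP_fc2a59_co.ALM.C.p_dtc
import Pool.Agent.Lib.MP_fc2a59_co.ALM.C.p_und
import Pool.Agent.Lib.MP_fc2a59_co.ALM.C.p_ovl
import Pool.Agent.Lib.MP_fc2a59_co.ALM.C.p_ovc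
import Pool.Agent.Lib.MP_fc2a59_co.ALM.C.p_fac
import Pool.Agent.Lib.MP_fc2a59_co.ALM.C.p_CM
import Pool.Agent.Lib.MP_fc2a59_co.ALM.C.p_Bn
import Pool.Agent.Lib.MP_fc2a59_co.ALM.C.p_Bp
import Pool.Agent.Lib.MP_fc2a59_co.ALM.C.p_cyQ
import Pool.Agent.Lib.MP_fc2a59_co.ALM.C.p_cyD
import Pool.Agent.Lib.MP_fc2a59_co.ALM.C.p_Dq
import Pool.Agent.Lib.MP_fc2a59_co.ALM.C.p_ql
import Pool.Agent.Lib.MP_fc2a59_co.ALM.C.p_psp
import Pool.Agent.Lib.MP_fc2a59_co.ALM.C.p_psi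
import Pool.Agent.Lib.MP_fc2a59_co.ALM.C.p_Dp
import Pool.Agent.Lib.MP_fc2a59_co.ALM.K.p_Kd
import Pool.Agent.Lib.MP_fc2a59_co.ALM.K.p_Kc
import Pool.Agent.Lib.MP_fc2a59_co.ALM.K.p_Kn
import Pool.Agent.Lib.MP_fc2a59_co.ALM.K.p_K
import Pool.Agent.Lib.MP_fc2a59_co.ALM.M.p_gr
import Pool.Agent.Lib.MP_fc2a59_co.ALM.M.p_JT
import Pool.Agent.Lib.MP_fc2a59_co.ALM.M.p_X12
import Pool.Agent.Lib.MP_fc2a59_co.ALM.M.p_P0e
import Pool.Agent.Lib.MP_fc2a59_co.ALM.M.p_C0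
import Pool.Agent.Lib.MP_fc2a59_co.ALM.M.p_fin3
import Pool.Agent.Lib.MP_fc2a59_co.ALM.HO

set_option autoImplicit false

/-!
# Project ALM: assembly
-/

namespace Pool.Agent.ALM

theorem all_P0e_C0 : S_P0e ∧ S_C0 := by
  -- T
  have ncle := p_ncle
  have tT := p_T ncle
  have tTB := p_TB
  have t2ST := p_2ST ncle
  have tinv := p_inv
  have trem := p_rem
  have tDEC := p_DEC
  have tpr := p_pr
  have tprF := p_prF
  have tL3 := p_L3 tT t2ST trem tinv tDEC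
  have tJc := p_Jc
  have tN1 := p_N1 tL3 tJc
  -- A
  have aps := p_ps
  have afour := p_four aps
  have achb := p_chb aps
  have aulb := p_ulb afour achb
  have atlb := p_tlb aps
  have aloc := p_loc aps afour achb
  have abin := p_bin
  have aent := p_ent
  have arate := p_rate
  have aext := p_ext
  have adom := p_dom aulb atlb aent arate aext
  have asum := p_sum aloc abin adom
  have apref := p_pref
  have aA := p_A asum apref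
  have aEY := p_EY
  -- P
  have pbon := p_bon
  have pMM := p_MM pbon
  have ppoS := p_poS
  have pSSC := p_SSC ppoS
  have pP4s := p_P4s
  have pP4 := p_P4 pP4s
  -- S
  have sblk := p_blk
  have sSPL := p_SPL sblk t2ST tinv ncle
  have slab := p_lab
  have scfl := p_cfl tTB
  have sCOMP := p_COMP scfl slab
  have str2 := p_tr2 tT
  have srec := p_rec sblk tinv ncle
  have screc := p_crec
  have sFOR := p_FOR str2 srec screc
  have sFORP := p_FORP sblk tinv ncle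
  have sNAA := p_NAA sSPL sCOMP sFORP sFOR sblk ncle
  have sY2 := p_Y2 sNAA tN1 tJc
  -- C
  have ccyv := p_cyv
  have ccyb := p_cyb ccyv
  have cfib := p_fib ccyv ccyb
  have cdtc := p_dtc cfib ccyb ccyv
  have cund := p_und ccyb
  have covl := p_ovl ccyv ccyb
  have covc := p_ovc ccyv ccyb
  have cfac := p_fac ccyb
  have cCM := p_CM cfac cdtc covl covc
  have cBn := p_Bn tpr tprF
  have cDn := p_Dn cund tpr tprF
  have cBp := p_Bp tL3 tJc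
  have ccyQ := p_cyQ ccyv ccyb cund
  have ccyD := p_cyD ccyQ tL3 cund
  have cDq := p_Dq ccyD tJc
  have cql := p_ql
  have cpsp := p_psp
  have cpsi := p_psi
  have cDp := p_Dp cDq cql cpsp cpsi
  -- K
  have kKd := p_Kd
  have kKc := p_Kc tpr
  have kKn := p_Kn
  have kK := p_K kKd kKc kKn
  -- M
  have mX12 := p_X12 ccyv
  exact ⟨p_P0e pMM pSSC pP4 cCM cBn cDn cBp cDp sY2 aA aEY mX12,
    p_C0 pMM pP4 cCM cBn cDn mX12 kK⟩

theorem main : S_fin3 := p_fin3 all_P0e_C0.1 all_P0e_C0.2 p_gr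

end Pool.Agent.ALM
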